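import Pool.Agent.Helper43.TA.Final
import Pool.Agent.Helper96.HN.Rep
import Pool.Agent.Helper96.HN.Rge

/-!
# Project TH (MP_0f6f3f_an): the final theorems for the groups `PSL(n, ℍ)`
-/

set_option autoImplicit false

open Matrix Topology Filter

namespace Pool.Agent.Helper43.TH

open Pool.Agent.Helper96.SA Pool.Agent.Helper96.FR Pool.Agent.Helper66.RKS Pool.Agent.Helper96.TO Pool.Agent.Helper66.BD
open Pool.Agent.Helper84.NI Pool.Agent.Helper84.GN Pool.Agent.Helper84.GVN Pool.Agent.Helper55.FR Pool.Agent.Helper96.HN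
open Pool.Agent.Helper43.TA Pool.Agent.Helper9.QH

variable {L : Type} [LieRing L] [LieAlgebra ℝ L] {N : ℕ} {θ : L ≃ₗ⁅ℝ⁆ L} {b : Module.Basis (Fin N) ℝ L}
  {G : Subgroup (GL (Fin N) ℝ)} {Γ : Subgroup G} {A : Submodule ℝ L}

theorem rankLE_H {n : ℕ} (Λ : Subgroup (PSLH n)) (h : DiscreteTopology Λ) : RankLE Λ (n - 1) := by
  obtain ⟨ρ, J, ⟨h1, h2, h3⟩, -⟩ := rep_PSLH Λ h
  exact ⟨2 * n, ρ, (cartan_iff ρ).2 (Pool.Agent.Helper66.RK.kak_quat (P := ρ.ph) h1 h2 h3)⟩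

/-- Discrete subgroups of `PSL(n, ℍ)`, `n ≤ r + 1`. -/
theorem type_embH' [LieAlgebra.IsSimple ℝ L] (h : CartanBasis θ b) (hG : IsAdj b G) (hA : MaxFlat θ A)
    (h2 : 2 ≤ Module.finrank ℝ A) (hL : Pool.Agent.Helper96.FR.Lattice Γ) {n : ℕ} {Λ : Subgroup (PSLH n)}
    (hΛ : DiscreteTopology Λ) (hnr : n ≤ Module.finrank ℝ A + 1) (E : Emb Γ Λ) :
    IsTypeA (rootsL A) ∧ n = Module.finrank ℝ A + 1 := by
  have hr := finrank_eq h hG hA
  have hS := selfAdj_of_aut h hG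
  obtain ⟨i1, i2, i3⟩ := instances hS.closed
  have h4 := full_rank_emb escAll hL (rankGE_realRank hS) (rankLE_H Λ hΛ) E
  refine ⟨?_, by omega⟩
  by_contra hn
  have hp := simSl2_of_simple inferInstance h hG hA h2 hn
  rw [hr] at hp h2 hnr
  have hT : TwoG G (realRank G - 1) := twoG_of_simSl2 hS.closed (fun X hX => lie_transpose hS hX) hp
  have e : realRank G - 1 = n - 2 := by omega
  rw [e] at hT
  exact quat_emb3 hL (by omega) hT Λ hΛ E

theorem type_embH [LieAlgebra.IsSimple ℝ L] (h : CartanBasis θ b) (hG : IsAdj b G) (hA : MaxFlat θ A)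
    (h2 : 2 ≤ Module.finrank ℝ A) (hL : Pool.Agent.Helper96.FR.Lattice Γ) {n : ℕ} {Λ : Subgroup (PSLH n)}
    (hΛ : DiscreteTopology Λ) (hnr : n ≤ Module.finrank ℝ A + 1) (he : EmbL Γ Λ) :
    IsTypeA (rootsL A) ∧ n = Module.finrank ℝ A + 1 := by
  obtain ⟨E⟩ := emb_of_embL he
  exact type_embH' h hG hA h2 hL hΛ hnr E

/-- An isomorphism with the algebra of a lattice of `PSL(n, ℍ)`. -/
theorem type_isoH [LieAlgebra.IsSimple ℝ L] (h : CartanBasis θ b) (hG : IsAdj b G) (hA : MaxFlat θ A)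
    (h2 : 2 ≤ Module.finrank ℝ A) (hL : Pool.Agent.Helper96.FR.Lattice Γ) {n : ℕ} {Λ : Subgroup (PSLH n)}
    (hΛ : Pool.Agent.Helper96.FR.Lattice Λ) (hiso : IsoL Γ Λ) : IsTypeA (rootsL A) ∧ n = Module.finrank ℝ A + 1 := by
  have hr := finrank_eq h hG hA
  have hS := selfAdj_of_aut h hG
  have hicc : IsICC Γ := icc_adj h hG (by rw [← realRank_of_aut h hG, ← hr]; omega) hL
  obtain ⟨⟨E⟩, ⟨E'⟩⟩ := emb_both hicc hiso
  refine type_embH' h hG hA h2 hL hΛ.1 ?_ E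
  rcases n with _ | k
  · exact Nat.zero_le _
  · have hk : k ≤ realRank G := full_rank_emb escAll hΛ (rankGE_PSLH k) (rankLE_realRank hS Γ hL.1) E'
    omega

end Pool.Agent.Helper43.TH
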