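import Pool.Agent.Helper43.TH.Fin2
import Pool.Agent.Helper43.TA.Top2
import Pool.Agent.Helper9.QH.Q5

/-!
# Project TH (MP_0f6f3f_an): lattices of groups with `TwoG` do not embed in quaternionic groups of the same rank

As `typeA_emb2` (helper56), with `typeA_core2T` and `reach_quat` (helper9).
-/

set_option autoImplicit false
set_option linter.unusedSectionVars false

open MeasureTheory Filter Topology

namespace Pool.Agent.Helper43.TH

open Pool.Agent.Helper84.NI Pool.Agent.Helper84.GVN Pool.Agent.Helper90.RK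
open Pool.Agent.Helper84.GN hiding toReg
open Pool.Agent.Helper96.RK Pool.Agent.Helper66.FR Pool.Agent.Helper84.FR Pool.Agent.Helper96.FR Pool.Agent.Helper55.FR
open Pool.Agent.Helper66.RKS Pool.Agent.Helper43.TA Pool.Agent.Helper9.QH

variable {G1 : Type} [Group G1] [TopologicalSpace G1] [IsTopologicalGroup G1] [LocallyCompactSpace G1]
  [SecondCountableTopology G1] [T2Space G1] {Γ1 : Subgroup G1} {Γ2 : Type} [Group Γ2] {N r : ℕ}

/-- The indices of the trivial gaps of quaternionic matrices: the even ones and the last one. -/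
def T0H (N : ℕ) : Finset (Fin N) := Finset.univ.filter fun i => (i : ℕ) % 2 = 0 ∨ (i : ℕ) + 1 = N

theorem xt_T0H {n : ℕ} (hn : 2 ≤ n) {q : Fin (2 * n)} (h : Xt (T0H (2 * n)) q) : (q : ℕ) = 1 ∨ (q : ℕ) + 3 = 2 * n := by
  obtain ⟨h1, h2 | h2⟩ := h
  · left
    have h3 := h2 ⟨1, by omega⟩ (by
      rw [T0H, Finset.mem_filter]
      push Not
      intro _
      refine ⟨by simp, ?_⟩
      show 1 + 1 ≠ 2 * n
      omega)
    have h4 : (q : ℕ) ≤ 1 := h3
    rw [T0H, Finset.mem_filter] at h1
    push Not at h1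
    have h5 := (h1 (Finset.mem_univ _)).1
    omega
  · right
    have h3 := h2 ⟨2 * n - 3, by omega⟩ (by
      rw [T0H, Finset.mem_filter]
      push Not
      intro _
      refine ⟨?_, ?_⟩
      · show (2 * n - 3) % 2 ≠ 0
        omega
      · show 2 * n - 3 + 1 ≠ 2 * n
        omega)
    have h4 : 2 * n - 3 ≤ (q : ℕ) := h3
    have h6 := q.2
    rw [T0H, Finset.mem_filter] at h1
    push Not at h1
    have h5 := h1 (Finset.mem_univ _)
    omega

theorem card_T0H {n : ℕ} (hn : 1 ≤ n) : (T0H (2 * n)).card = n + 1 := by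
  obtain ⟨m, rfl⟩ : ∃ m, n = m + 1 := ⟨n - 1, by omega⟩
  have h1 : T0H (2 * (m + 1)) = insert ⟨2 * m + 1, by omega⟩
      ((Finset.univ : Finset (Fin (m + 1))).map ⟨fun i : Fin (m + 1) => (⟨2 * i, by omega⟩ : Fin (2 * (m + 1))), fun i j h => by
        have h2 := congrArg Fin.val h
        simp only at h2
        exact Fin.ext (by omega)⟩) := by
    ext i
    rw [T0H, Finset.mem_filter, Finset.mem_insert, Finset.mem_map]
    constructor
    · rintro ⟨-, h | h⟩
      · right
        have h3 := i.2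
        exact ⟨⟨(i : ℕ) / 2, by omega⟩, Finset.mem_univ _, Fin.ext (by
          show 2 * ((i : ℕ) / 2) = i
          omega)⟩
      · left
        exact Fin.ext (by show (i : ℕ) = 2 * m + 1; omega)
    · rintro (h | ⟨j, -, h⟩)
      · refine ⟨Finset.mem_univ _, Or.inr ?_⟩
        rw [h]
        show 2 * m + 1 + 1 = 2 * (m + 1)
        omega
      · refine ⟨Finset.mem_univ _, Or.inl ?_⟩
        rw [← h]
        show (2 * (j : ℕ)) % 2 = 0
        omega
  rw [h1, Finset.card_insert_of_notMem, Finset.card_map, Finset.card_univ, Fintype.card_fin]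
  rw [Finset.mem_map]
  rintro ⟨j, -, h⟩
  have h2 := congrArg Fin.val h
  have h3 : 2 * (j : ℕ) = 2 * m + 1 := h2
  omega

theorem quat_emb2 (hL : Pool.Agent.Helper96.FR.Lattice Γ1) {n : ℕ} (hn : 3 ≤ n) (hT : TwoG G1 (n - 2)) (ρ : PRep Γ2 (2 * n))
    {J : MN (2 * n)} (hJ : Quat ρ.ph J) (hTr : ∀ S : Sv ρ.ph, Triv S (T0H (2 * n))) (E : Emb Γ1 Γ2) : False := by
  classical
  obtain ⟨Z, F, K, hK, hKZ, hF, hna, hTZ⟩ := hT
  obtain ⟨S⟩ := nonempty_sv ρ.ph
  have hd : DiscreteTopology Γ1 := hL.1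
  have hcount : Countable Γ1 := countable_of_discrete Γ1
  obtain ⟨X, mX, act, μ, hμ, c, hmp, hme, hmul, hF2, hF3, hF4⟩ := exists_cocycle Γ1 hL
  have i1 : MeasurableConstSMul G1 X := ⟨fun g => (hmp g).measurable⟩
  have i2 : SMulInvariantMeasure G1 X μ := ⟨fun g s hs => (hmp g).measure_preimage hs.nullMeasurableSet⟩
  let a : Cocy G1 X Γ1 := ⟨c, fun h l => hme h {l}, hmul⟩
  obtain ⟨e, u, w, hcF, hcc, hcu, hcon, hmt⟩ := hTZ
  let D : Dat μ a Z (n - 2) :=
    { h3 := hF3
      hF2 := hF2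
      hp := fun F' hF' => ⟨countable_of_discrete F', hF4 F' hF'⟩
      e := e
      u := u
      w := w
      cF := hcF
      cc := hcc
      cu := hcu
      con := hcon
      mt := hmt }
  have hFc : Countable F := countable_of_discrete F
  obtain ⟨p, hp, hpe⟩ := hF4 F hF
  refine typeA_core2T (E := E) (S := S) (hTr S) D (by rw [card_T0H (by omega)]; omega) (by omega) hK hKZ hF hna ?_
  intro q β hβ hq hgap
  exact reach_quat (a := a) (E := E) S hJ (by omega) (xt_T0H (by omega) hq) F hna p (fun l g => hp l {g}) hpe hβ hgap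

end Pool.Agent.Helper43.TH
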