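import Pool.Agent.Helper43.TA.Comb
import Pool.Agent.Helper43.TA.Sel

/-!
# Project TH (MP_0f6f3f_an): trivial gaps

`Triv S T0`: the gaps in `T0` are trivial (`lg = 0`) for all elements. For discrete subgroups of `GL(n, ℍ) ⊆ GL(2n, ℂ)` every second gap is trivial. The results of project TA hold with `r + 1` nontrivial gaps instead of `N - 1`.
-/

set_option autoImplicit false
set_option linter.unusedSectionVars false

open MeasureTheory Filter Topology

namespace Pool.Agent.Helper43.TH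

open Pool.Agent.Helper84.NI Pool.Agent.Helper84.GN Pool.Agent.Helper84.GVN Pool.Agent.Helper90.RK
open Pool.Agent.Helper96.RK Pool.Agent.Helper66.FR Pool.Agent.Helper55.FR Pool.Agent.Helper43.TA

variable {G : Type} [Group G] {N : ℕ} {P : PH G N}

/-- The gaps in `T0` are trivial. -/
def Triv (S : Sv P) (T0 : Finset (Fin N)) : Prop := ∀ γ : G, ∀ i ∈ T0, lg S γ i = 0

theorem triv_sub {S : Sv P} {T0 : Finset (Fin N)} (hT : Triv S T0) {c : List (Finset (Fin N))} {m : ℕ} (hm : 1 ≤ m) {γ : G}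
    (h : γ ∈ TC S c m) : ∀ J ∈ c, T0 ⊆ J := by
  intro J hJ L hL
  by_contra hn
  have h1 := h J hJ L hn
  have h2 : lg S γ L = 0 := hT γ L hL
  have h3 := sum_lg_nonneg S γ J
  have h4 : (1 : ℝ) ≤ m := by exact_mod_cast hm
  rw [h2] at h1
  nlinarith

theorem TJ_gapT {S : Sv P} {T0 : Finset (Fin N)} (hT : Triv S T0) {j m : ℕ} (hj : N ≤ j + T0.card) {γ : G}
    (h : γ ∈ TJ S j (m + 1)) {i : Fin N} (hi : i ∉ T0) : (m : ℝ) + 1 ≤ lg S γ i := by
  obtain ⟨c, h1, h2, h3⟩ := h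
  have h4 := card_hd c h2
  have hsub := triv_sub hT (Nat.le_add_left 1 m) h3
  rcases c with _ | ⟨J, c⟩
  · rw [List.length_nil] at h1
    subst h1
    rw [zero_add] at hj
    have h5 : T0 = Finset.univ := by
      apply Finset.eq_univ_of_card
      rw [Fintype.card_fin]
      exact le_antisymm (by simpa using Finset.card_le_univ T0) hj
    exact absurd (h5 ▸ Finset.mem_univ i) hi
  · have h5 : hd (J :: c) = J := rfl
    rw [h5, h1] at h4
    have h6 := hsub J List.mem_cons_self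
    have h7 : J = T0 := (Finset.eq_of_subset_of_card_le h6 (by omega)).symm
    have h8 := h3 J List.mem_cons_self i (h7 ▸ hi)
    have h9 := sum_lg_nonneg S γ J
    have h10 : (0 : ℝ) ≤ m := Nat.cast_nonneg m
    push_cast at h8
    nlinarith

variable {X : Type} [MeasurableSpace X] {μ : Measure X} [IsProbabilityMeasure μ]

theorem card_boundT {S : Sv P} {T0 : Finset (Fin N)} (hT : Triv S T0) {I : Type} (z : I → XL μ (L2 G))
    (hz : ∀ i, ∀ᵐ y ∂μ, ‖z i y‖ ≤ 1)
    (V : ℕ → Set I) (s : ℕ) (J0 : Finset (Fin N)) (c0 : List (Finset (Fin N))) (b0 : ℕ → I) (hb0 : ∀ n, b0 n ∈ V 0)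
    (h0 : HasComp (toReg (chStr S J0 c0)) z hz b0)
    (hesc : ∀ k, k < s → ∀ (J : Finset (Fin N)) (c : List (Finset (Fin N))) (b : ℕ → I),
      (∀ n, b n ∈ V k) → HasComp (toReg (chStr S J c)) z hz b → ∃ β : ℝ, 0 < β ∧ ∀ m : ℕ, ∃ g ∈ V (k + 1),
        β ≤ ‖cl μ (ind ℂ (TC S (J :: c) m \ WC S (hd (J :: c)) m)) (z g)‖) : s + T0.card ≤ J0.card := by
  have key : ∀ k : ℕ, k ≤ s → ∃ (J : Finset (Fin N)) (c : List (Finset (Fin N))) (b : ℕ → I),
      (∀ n, b n ∈ V k) ∧ HasComp (toReg (chStr S J c)) z hz b ∧ J.card + k ≤ J0.card := by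
    intro k
    induction k with
    | zero =>
      intro _
      exact ⟨J0, c0, b0, hb0, h0, le_of_eq (Nat.add_zero _)⟩
    | succ k ih =>
      intro hk
      obtain ⟨J, c, b, hb, hcomp, hcard⟩ := ih (by omega)
      obtain ⟨β, hβ, h⟩ := hesc k (by omega) J c b hb hcomp
      obtain ⟨J', b', hJ', hb', ξ, hξ, hne⟩ := selectX S (J :: c) z hz hβ h
      refine ⟨J', J :: c, b', hb', ⟨ξ, hξ, hne⟩, ?_⟩
      have h1 : J'.card < J.card := Finset.card_lt_card hJ'
      omega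
  obtain ⟨J, c, b, _, hcomp, hcard⟩ := key s le_rfl
  obtain ⟨γ, hγ⟩ := TC_nonemptyX hcomp 1
  have h1 := Finset.card_le_card (triv_sub hT le_rfl hγ J List.mem_cons_self)
  omega

end Pool.Agent.Helper43.TH
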