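import Pool.Agent.Helper43.TH.Side

/-!
# Project TH (MP_0f6f3f_an): `no_mid` with trivial gaps
-/

set_option autoImplicit false
set_option linter.unusedSectionVars false

open MeasureTheory Filter Topology

namespace Pool.Agent.Helper43.TH

open Pool.Agent.Helper84.NI Pool.Agent.Helper84.GVN Pool.Agent.Helper90.RK
open Pool.Agent.Helper84.GN hiding toReg
open Pool.Agent.Helper96.RK Pool.Agent.Helper66.FR Pool.Agent.Helper84.FR Pool.Agent.Helper96.FR Pool.Agent.Helper55.FR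
open Pool.Agent.Helper43.TA

variable {G1 X G Λ : Type} [Group G1] [TopologicalSpace G1] [IsTopologicalGroup G1] [T2Space G1] [MeasurableSpace X]
  {μ : Measure X} [MulAction G1 X] [MeasurableConstSMul G1 X] [SMulInvariantMeasure G1 X μ] [IsProbabilityMeasure μ]
  [Group G] [Group Λ] [Countable Λ] {a : Cocy G1 X Λ} {E : Emb Λ G} {N : ℕ} {P : PH G N} {S : Sv P}
  {F : Subgroup G1} {r : ℕ} {T0 : Finset (Fin N)}

private theorem exists_smallT {f : ℕ → ℝ} (hf : Tendsto (av f) atTop (𝓝 0)) {ρ : ℝ} (hρ : 0 < ρ) :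
    ∃ k, f k ≤ ρ := by
  by_contra hcon
  push Not at hcon
  have h1 : ∀ᶠ K in atTop, av f K < ρ := hf.eventually (gt_mem_nhds hρ)
  obtain ⟨K, hK, hK1⟩ := (h1.and (eventually_ge_atTop 1)).exists
  have hK0 : (0 : ℝ) < K := by exact_mod_cast hK1
  have h2 : ρ * K ≤ ∑ k ∈ Finset.range K, f k := by
    calc ρ * K = ∑ k ∈ Finset.range K, ρ := by
          rw [Finset.sum_const, Finset.card_range, nsmul_eq_mul, mul_comm]
      _ ≤ _ := Finset.sum_le_sum fun k _ => (hcon k).le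
  have h3 : ρ ≤ av f K := by
    unfold av
    rw [le_div_iff₀ hK0]
    exact h2
  linarith

/-- The elements which commute with the elements of `D` with numbers `> k`. -/
private def VST (D : Dat μ a F r) (k : ℕ) : Set G1 :=
  {g | ∀ i : Fin r, k + 1 ≤ (i : ℕ) → g * D.e i = D.e i * g ∧ g * D.u i = D.u i * g ∧ g * D.w i = D.w i * g}

private theorem comm_powT (D : Dat μ a F r) {i j : Fin r} (hij : i ≠ j) (z : ℤ) {b : G1}
    (hb : b * D.e j = D.e j * b ∧ b * D.u j = D.u j * b ∧ b * D.w j = D.w j * b) :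
    (D.e i ^ z * b) * D.e j = D.e j * (D.e i ^ z * b) ∧ (D.e i ^ z * b) * D.u j = D.u j * (D.e i ^ z * b) ∧
      (D.e i ^ z * b) * D.w j = D.w j * (D.e i ^ z * b) := by
  have h1 : Commute (D.e i) (D.e j) := D.cc i j
  have h2 : Commute (D.e i) (D.u j) := (D.cu i j hij).1
  have h3 : Commute (D.e i) (D.w j) := (D.cu i j hij).2
  have b1 : Commute b (D.e j) := hb.1
  have b2 : Commute b (D.u j) := hb.2.1
  have b3 : Commute b (D.w j) := hb.2.2
  exact ⟨(h1.zpow_left z).mul_left b1, (h2.zpow_left z).mul_left b2, (h3.zpow_left z).mul_left b3⟩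

theorem no_midT (hT : Triv S T0) (D : Dat μ a F r) (hr : r + 1 + T0.card = N) {b : ℕ → G1} (hbF : ∀ n, b n ∈ F)
    (hb : Tendsto b atTop (cocompact G1)) {q x0 y0 : Fin N} (hx0 : x0 ∉ T0) (hxq0 : x0 < q) (hy0 : y0 ∉ T0) (hqy0 : q < y0) :
    ¬ HasComp (toReg (chStr S (Finset.univ.erase q) [])) (zx μ a E) zx_bound b := by
  classical
  intro hcomp
  have hN : 0 < N := lt_of_le_of_lt (Nat.zero_le _) q.2
  have hr1 : 1 ≤ r := by
    have h1 : T0 ⊆ (Finset.univ.erase x0).erase y0 := by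
      intro j hj
      rw [Finset.mem_erase, Finset.mem_erase]
      exact ⟨fun h => hy0 (h ▸ hj), fun h => hx0 (h ▸ hj), Finset.mem_univ _⟩
    have h2 := Finset.card_le_card h1
    have e1 : y0 ∈ (Finset.univ.erase x0 : Finset (Fin N)) := by
      rw [Finset.mem_erase]
      exact ⟨(lt_trans hxq0 hqy0).ne', Finset.mem_univ _⟩
    rw [Finset.card_erase_of_mem e1, Finset.card_erase_of_mem (Finset.mem_univ _), Finset.card_univ, Fintype.card_fin] at h2
    omega
  have hqJ : q ∉ (Finset.univ.erase q : Finset (Fin N)) := Finset.notMem_erase q _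
  have hρ0 := (hasComp_iff (a := a) (E := E) (toReg (chStr S (Finset.univ.erase q) [])) b).1 hcomp
  obtain ⟨ρ, hρ⟩ : ∃ ρ, ρ = mR μ a E (toReg (chStr S (Finset.univ.erase q) [])) Set.univ b := ⟨_, rfl⟩
  rw [← hρ] at hρ0
  let i0 : Fin r := ⟨0, by omega⟩
  have hz0 : x0 ≠ q := hxq0.ne
  have hq1' : y0 ≠ q := hqy0.ne'
  set J0 : Finset (Fin N) := Finset.univ.erase q with hJ0
  set KA := KB J0 (bJ J0 x0) with hKA
  set KC := KB J0 (bJ J0 y0) with hKC
  have hA : ∀ k ∈ KA, k < q := by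
    intro k hk
    rw [hKA, mem_KB] at hk
    by_contra hkq
    have hkne : k ≠ q := fun h => hqJ (h ▸ hk.1)
    have h1 : q < k := lt_of_le_of_ne (not_lt.1 hkq) (Ne.symm hkne)
    exact hqJ (mem_of_bJ_eq hk.2.symm hxq0.le h1)
  have hC : ∀ k ∈ KC, q < k := by
    intro k hk
    rw [hKC, mem_KB] at hk
    by_contra hkq
    exact hqJ (mem_of_bJ_eq hk.2 (not_lt.1 hkq) hqy0)
  have hRF : ∀ m n, TC S [J0] m ∈ (toReg (chStr S J0 [])).F n := fun m n => TC_mem_FC S J0 [] m n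
  have key : ∀ m : ℕ, ∃ (k n : ℕ), Real.sqrt (ρ / 4) ≤
      ‖cl μ (ind ℂ (TC S [J0] m \ {γ | ∃ K ∈ ({KA, KC} : Finset (Finset (Fin N))), γ ∈ WC S K m}))
        (zx μ a E (D.e i0 ^ k * b n))‖ := by
    intro m
    have hsA := side_meanT (E := E) (S := S) hT D hr hbF hb (q := q) (i := x0) hx0 hz0 m (i0 := i0) rfl
    have hsC := side_meanT (E := E) (S := S) hT D hr hbF hb (q := q) (i := y0) hy0 hq1' m (i0 := i0) rfl
    have hsum := hsA.add hsC
    rw [add_zero] at hsum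
    have hav : Tendsto (av fun k => mR μ a E (toReg (chStr S J0 [])) (WC S KA m) (ltr (D.e i0 ^ k) b) +
        mR μ a E (toReg (chStr S J0 [])) (WC S KC m) (ltr (D.e i0 ^ k) b)) atTop (𝓝 0) := by
      refine hsum.congr fun K => ?_
      unfold av
      rw [Finset.sum_add_distrib, add_div]
    obtain ⟨k, hk⟩ := exists_smallT hav (by linarith : 0 < ρ / 2)
    have hcom : ∀ n, b n * D.e i0 ^ k = D.e i0 ^ k * b n := by
      intro n
      have h1 : Commute (b n) (D.e i0) := (D.cF i0 (b n) (hbF n)).1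
      exact (h1.pow_right k)
    have h1 := mR_ltr (a := a) (E := E) (μ := μ) (toReg (chStr S J0 [])) hcom
    rw [← hρ] at h1
    have h2 := mR_union (a := a) (E := E) (μ := μ) (toReg (chStr S J0 [])) (WC S KA m) (WC S KC m) (ltr (D.e i0 ^ k) b)
    have h3 := mR_compl (a := a) (E := E) (μ := μ) (toReg (chStr S J0 [])) (WC S KA m ∪ WC S KC m) (ltr (D.e i0 ^ k) b)
    have h4 := mR_carried (a := a) (E := E) (μ := μ) (toReg (chStr S J0 [])) (hRF m) (WC S KA m ∪ WC S KC m)ᶜ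
      (ltr (D.e i0 ^ k) b)
    have h5 := mR_le_ms (a := a) (E := E) (μ := μ) (toReg (chStr S J0 [])) (TC S [J0] m ∩ (WC S KA m ∪ WC S KC m)ᶜ)
      (ltr (D.e i0 ^ k) b)
    have h6 : ρ / 4 < ms μ a E (TC S [J0] m ∩ (WC S KA m ∪ WC S KC m)ᶜ) (ltr (D.e i0 ^ k) b) := by linarith
    have hset : TC S [J0] m \ {γ | ∃ K ∈ ({KA, KC} : Finset (Finset (Fin N))), γ ∈ WC S K m} =
        TC S [J0] m ∩ (WC S KA m ∪ WC S KC m)ᶜ := by
      ext γ
      simp only [Set.mem_sdiff, Set.mem_ofPred_eq, Finset.mem_insert, Finset.mem_singleton, exists_eq_or_imp,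
        exists_eq_left, Set.mem_inter_iff, Set.mem_compl_iff, Set.mem_union]
    obtain ⟨n, hn⟩ := ((ms_tendsto (a := a) (E := E) (μ := μ) (TC S [J0] m ∩ (WC S KA m ∪ WC S KC m)ᶜ)
      (ltr (D.e i0 ^ k) b)).eventually (lt_mem_nhds h6)).exists
    refine ⟨k, n, ?_⟩
    rw [hset]
    exact Real.sqrt_le_iff.2 ⟨norm_nonneg _, hn.le⟩
  choose kk nn hkn using key
  obtain ⟨J, hJ, hKJ, hcJ⟩ := selectK S [J0] {KA, KC} (zx μ a E) zx_bound (Real.sqrt_pos.2 (by linarith : 0 < ρ / 4))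
    (fun m => D.e i0 ^ kk m * b (nn m)) hkn
  have hJ0' : J ⊆ J0 := hJ
  obtain ⟨x, hx, hxJ⟩ := Finset.not_subset.1 (hKJ KA (by simp))
  obtain ⟨y, hy, hyJ⟩ := Finset.not_subset.1 (hKJ KC (by simp))
  have hxq := hA x hx
  have hyq := hC y hy
  have hsub : J ⊆ ((Finset.univ.erase q).erase x).erase y := by
    intro j hj
    rw [Finset.mem_erase, Finset.mem_erase]
    exact ⟨fun h => hyJ (h ▸ hj), fun h => hxJ (h ▸ hj), hJ0' hj⟩
  have hcard : J.card + 3 ≤ N := by
    have hN3 : 3 ≤ N := by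
      have h1 : (x : ℕ) < (q : ℕ) := hxq
      have h2 : (q : ℕ) < (y : ℕ) := hyq
      have h3 := y.2
      omega
    have hle := Finset.card_le_card hsub
    have e1 : y ∈ (Finset.univ.erase q).erase x := by
      rw [Finset.mem_erase, Finset.mem_erase]
      exact ⟨(lt_trans hxq hyq).ne', hyq.ne', Finset.mem_univ _⟩
    have e2 : x ∈ (Finset.univ.erase q : Finset (Fin N)) := by
      rw [Finset.mem_erase]
      exact ⟨hxq.ne, Finset.mem_univ _⟩
    rw [Finset.card_erase_of_mem e1, Finset.card_erase_of_mem e2, Finset.card_erase_of_mem (Finset.mem_univ q),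
      Finset.card_univ, Fintype.card_fin] at hle
    omega
  have hv : ∀ n, D.e i0 ^ kk n * b (nn n) ∈ VST D 0 := by
    intro n j hj
    have hne : i0 ≠ j := by
      intro h
      have h1 : (i0 : ℕ) = (j : ℕ) := by rw [h]
      change 0 = (j : ℕ) at h1
      omega
    have h1 := comm_powT D hne (kk n : ℤ) (D.cF j (b (nn n)) (hbF _))
    rw [zpow_natCast] at h1
    exact h1
  have hfin := card_boundT hT (zx μ a E) zx_bound (VST D) (r - 1) J [J0] _ hv hcJ (by
    intro k hk J' c' b' hb' hc'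
    obtain ⟨β, hβ, hβ'⟩ := esc_lvl D ⟨k + 1, by omega⟩ b' (fun n => hb' n ⟨k + 1, by omega⟩ le_rfl) J' c' hc'
    refine ⟨β, hβ, fun m => ?_⟩
    obtain ⟨n, z, hz⟩ := hβ' m
    refine ⟨_, ?_, hz⟩
    intro j hj
    have hne : (⟨k + 1, by omega⟩ : Fin r) ≠ j := by
      intro h
      have h1 : k + 1 = (j : ℕ) := by rw [← h]
      omega
    exact comm_powT D hne z (hb' n j (by omega)))
  omega

end Pool.Agent.Helper43.TH
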