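import Pool.Agent.Helper43.TA.Fin
import Pool.Agent.Helper43.TA.Shf
import Pool.Agent.Helper43.TH.Mid

/-!
# Project TH (MP_0f6f3f_an): far elements of `Z` have a large extreme nontrivial gap

As `ext_gaps` (helper23, `TA/Ext.lean`), with trivial gaps.
-/

set_option autoImplicit false
set_option linter.unusedSectionVars false

open MeasureTheory Filter Topology

namespace Pool.Agent.Helper43.TH

open Pool.Agent.Helper84.NI Pool.Agent.Helper84.GVN Pool.Agent.Helper90.RK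
open Pool.Agent.Helper84.GN hiding toReg
open Pool.Agent.Helper96.RK Pool.Agent.Helper66.FR Pool.Agent.Helper84.FR Pool.Agent.Helper96.FR Pool.Agent.Helper55.FR
open Pool.Agent.Helper43.TA

variable {G1 X G Λ : Type} [Group G1] [TopologicalSpace G1] [IsTopologicalGroup G1] [LocallyCompactSpace G1]
  [SecondCountableTopology G1] [T2Space G1] [MeasurableSpace X]
  {μ : Measure X} [MulAction G1 X] [MeasurableConstSMul G1 X] [SMulInvariantMeasure G1 X μ] [IsProbabilityMeasure μ]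
  [Group G] [Group Λ] [Countable Λ] {a : Cocy G1 X Λ} {E : Emb Λ G} {N : ℕ} {P : PH G N} {S : Sv P}
  {Z : Subgroup G1} {r : ℕ} {T0 : Finset (Fin N)}

/-- The first or the last nontrivial index. -/
def Xt (T0 : Finset (Fin N)) (q : Fin N) : Prop := q ∉ T0 ∧ ((∀ j ∉ T0, q ≤ j) ∨ ∀ j ∉ T0, j ≤ q)

/-- The extreme nontrivial gaps are at most `R`. -/
def ELT (S : Sv P) (T0 : Finset (Fin N)) (R : ℕ) : Set G := {γ | ∀ i : Fin N, Xt T0 i → lg S γ i ≤ R}

private theorem cl_mono_h23T {s t : Set G} (h : s ⊆ t) (f : XL μ (L2 G)) : ‖cl μ (ind ℂ s) f‖ ≤ ‖cl μ (ind ℂ t) f‖ := by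
  have h1 := cl_ind_split s (cl μ (ind ℂ t) f)
  rw [cl_ind_ind, Set.inter_eq_left.2 h] at h1
  have h2 : ‖cl μ (ind ℂ s) f‖ ^ 2 ≤ ‖cl μ (ind ℂ t) f‖ ^ 2 := by
    nlinarith [sq_nonneg ‖cl μ (ind ℂ (Set.univ \ s)) (cl μ (ind ℂ t) f)‖]
  exact (sq_le_sq₀ (norm_nonneg _) (norm_nonneg _)).1 h2

private theorem cl_split_h23T (A W : Set G) (f : XL μ (L2 G)) :
    ‖cl μ (ind ℂ A) f‖ ^ 2 ≤ ‖cl μ (ind ℂ W) f‖ ^ 2 + ‖cl μ (ind ℂ (A \ W)) f‖ ^ 2 := by
  have h1 := cl_ind_split W (cl μ (ind ℂ A) f)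
  rw [cl_ind_ind, cl_ind_ind] at h1
  have h2 : Set.univ \ W ∩ A = A \ W := by
    ext γ
    simp only [Set.mem_inter_iff, Set.mem_sdiff, Set.mem_univ, true_and]
    exact and_comm
  have h2' : (Set.univ \ W) ∩ A = A \ W := h2
  rw [h2'] at h1
  have h3 := cl_mono_h23T (μ := μ) (Set.inter_subset_left : W ∩ A ⊆ W) f
  have h4 : ‖cl μ (ind ℂ (W ∩ A)) f‖ ^ 2 ≤ ‖cl μ (ind ℂ W) f‖ ^ 2 := pow_le_pow_left₀ (norm_nonneg _) h3 2
  linarith

private theorem exists_seq_h23T {Q : G1 → Prop} (h : ∀ K0 : Set G1, IsCompact K0 → ∃ z, z ∉ K0 ∧ Q z) :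
    ∃ b : ℕ → G1, (∀ n, Q (b n)) ∧ Tendsto b atTop (cocompact G1) := by
  have h1 : ∀ n : ℕ, ∃ z, z ∉ (CompactExhaustion.choice G1) n ∧ Q z :=
    fun n => h _ ((CompactExhaustion.choice G1).isCompact n)
  choose b hb hQ using h1
  refine ⟨b, hQ, ?_⟩
  rw [(hasBasis_cocompact (X := G1)).tendsto_right_iff]
  intro C hC
  obtain ⟨n, hn⟩ := (CompactExhaustion.choice G1).exists_superset_of_isCompact hC
  filter_upwards [eventually_ge_atTop n] with k hk
  intro hmem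
  exact hb k ((CompactExhaustion.choice G1).subset hk (hn hmem))

private theorem mass_WC_h23T (D : Dat μ a Z r) {b : ℕ → G1} (hb : Tendsto b atTop (cocompact G1)) (M : ℕ) :
    Tendsto (fun n => ‖cl μ (ind ℂ (WC S Finset.univ M)) (zx μ a E (b n))‖ ^ 2) atTop (𝓝 0) := by
  have hfin : {γ | ∀ i, lg S γ i ≤ M}.Finite := finite_lg_le S M
  have hset : WC S Finset.univ M = ((hfin.toFinset : Finset G) : Set G) := by
    rw [hfin.coe_toFinset]
    ext γ
    exact ⟨fun h i => h i (Finset.mem_univ _), fun h i _ => h i⟩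
  rw [hset]
  have hc : ∀ (g : G1) (l : Λ), MeasurableSet (a.a g ⁻¹' {l}) := fun g l => a.meas g l
  exact tendsto_mass (μ := μ) E (f := fun m : ℕ => zx μ a E (b m))
    (c := fun m x => a.a (b m) ((b m)⁻¹ • x))
    (fun m l => (measurable_const_smul (b m)⁻¹) (hc _ l))
    (fun m => zv_apply (mea_a (b m) (b m)⁻¹)) (fun l => by
      have h2 := (ENNReal.tendsto_toReal ENNReal.zero_ne_top).comp ((D.hF2 l).comp hb)
      rw [ENNReal.toReal_zero] at h2
      refine h2.congr fun m => ?_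
      have h3 := (measurePreserving_smul (b m)⁻¹ μ).measure_preimage (hc (b m) l).nullMeasurableSet
      change (μ (a.a (b m) ⁻¹' {l})).toReal =
        (μ ((fun x => (b m)⁻¹ • x) ⁻¹' (a.a (b m) ⁻¹' {l}))).toReal
      rw [h3]) hfin.toFinset

theorem ext_gapsT (hT : Triv S T0) (D : Dat μ a Z r) (hr : r + 1 + T0.card = N) (hr1 : 1 ≤ r) (R : ℕ) {ε : ℝ} (hε : 0 < ε) :
    ∃ K0 : Set G1, IsCompact K0 ∧ ∀ z ∈ Z, z ∉ K0 → ‖cl μ (ind ℂ (ELT S T0 R)) (zx μ a E z)‖ ≤ ε := by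
  classical
  by_contra hcon
  have hcon1 : ∀ K0 : Set G1, IsCompact K0 → ∃ z, z ∉ K0 ∧ (z ∈ Z ∧ ε < ‖cl μ (ind ℂ (ELT S T0 R)) (zx μ a E z)‖) := by
    intro K0 hK0
    by_contra h1
    refine hcon ⟨K0, hK0, fun z hz hzK => ?_⟩
    by_contra h2
    exact h1 ⟨z, hzK, hz, not_le.1 h2⟩
  obtain ⟨b, hb1, hb⟩ := exists_seq_h23T hcon1
  have hN : 0 < N := by omega
  -- the subsequence
  have h1 : ∀ m : ℕ, ∃ n : ℕ, m ≤ n ∧
      ‖cl μ (ind ℂ (WC S Finset.univ (max m R))) (zx μ a E (b n))‖ ^ 2 < ε ^ 2 * (3 / 4) := by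
    intro m
    have h2 := (mass_WC_h23T (S := S) (E := E) D hb (max m R)).eventually
      (gt_mem_nhds (show (0 : ℝ) < ε ^ 2 * (3 / 4) by positivity))
    obtain ⟨n, hn1, hn2⟩ := (h2.and (eventually_ge_atTop m)).exists
    exact ⟨n, hn2, hn1⟩
  choose nn hnn1 hnn2 using h1
  have hv : Tendsto (fun m => b (nn m)) atTop (cocompact G1) :=
    hb.comp (tendsto_atTop_mono hnn1 tendsto_id)
  obtain ⟨Mid, hMid⟩ : ∃ Mid : Finset (Fin N), Mid = Finset.univ.filter fun i : Fin N => i ∉ T0 ∧ ¬ Xt T0 i :=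
    ⟨_, rfl⟩
  have hmass : ∀ m : ℕ, ε / 2 ≤ ‖cl μ (ind ℂ (TC S ([] : List (Finset (Fin N))) m \
      {γ | ∃ K ∈ ({Mid} : Finset (Finset (Fin N))), γ ∈ WC S K m})) (zx μ a E (b (nn m)))‖ := by
    intro m
    have h2 := cl_split_h23T (μ := μ) (ELT S T0 R) (WC S Finset.univ (max m R)) (zx μ a E (b (nn m)))
    have h3 := (hb1 (nn m)).2
    have h4 := hnn2 m
    have hsub : ELT S T0 R \ WC S Finset.univ (max m R) ⊆ TC S ([] : List (Finset (Fin N))) m \
        {γ | ∃ K ∈ ({Mid} : Finset (Finset (Fin N))), γ ∈ WC S K m} := by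
      rintro γ ⟨hγ1, hγ2⟩
      refine ⟨fun I hI => absurd hI List.not_mem_nil, ?_⟩
      rintro ⟨K, hK, hγK⟩
      rw [Finset.mem_singleton] at hK
      rw [hK] at hγK
      have h5 : ∃ i : Fin N, ((max m R : ℕ) : ℝ) < lg S γ i := by
        by_contra h6
        push Not at h6
        exact hγ2 fun i _ => h6 i
      obtain ⟨i, hi⟩ := h5
      have hmR : (R : ℝ) ≤ ((max m R : ℕ) : ℝ) := by exact_mod_cast le_max_right _ _
      have hmm : (m : ℝ) ≤ ((max m R : ℕ) : ℝ) := by exact_mod_cast le_max_left _ _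
      have hiM : i ∈ Mid := by
        rw [hMid, Finset.mem_filter]
        refine ⟨Finset.mem_univ _, fun h0 => ?_, fun h0 => ?_⟩
        · have := hT γ i h0
          have h0' : (0 : ℝ) ≤ R := Nat.cast_nonneg R
          linarith
        · have := hγ1 i h0
          linarith
      have := hγK i hiM
      linarith
    refine le_trans ?_ (cl_mono_h23T hsub _)
    have h6 : ε ^ 2 < ‖cl μ (ind ℂ (ELT S T0 R)) (zx μ a E (b (nn m)))‖ ^ 2 :=
      pow_lt_pow_left₀ h3 hε.le two_ne_zero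
    refine (sq_le_sq₀ (by positivity) (norm_nonneg _)).1 ?_
    nlinarith
  obtain ⟨J, -, hKJ, hcJ⟩ := selectK S [] {Mid} (zx μ a E) zx_bound (half_pos hε) (fun m => b (nn m)) hmass
  obtain ⟨q, hqM, hqJ⟩ := Finset.not_subset.1 (hKJ Mid (Finset.mem_singleton_self _))
  obtain ⟨β, hβ, hm⟩ := mass_comp hcJ
  have hJ : J = Finset.univ.erase q := by
    by_contra hne
    have h2 : ∃ i : Fin N, i ≠ q ∧ i ∉ J := by
      by_contra h3
      push Not at h3
      refine hne ?_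
      ext i
      rw [Finset.mem_erase]
      constructor
      · intro hi
        exact ⟨fun h => hqJ (h ▸ hi), Finset.mem_univ _⟩
      · rintro ⟨hi, -⟩
        exact h3 i hi
    obtain ⟨i, hiq, hiJ⟩ := h2
    obtain ⟨R', hR'⟩ := no_twoT (E := E) (S := S) hT D hr hβ
    obtain ⟨n, hn⟩ := hm (R' + 1)
    have hsub : TC S (J :: []) (R' + 1) ⊆ TwoL S R' := by
      intro γ hγ
      have h3 := ((TC_cons S).1 hγ).1
      have h4 := sum_lg_nonneg S γ J
      have h5 : (R' : ℝ) < ((R' + 1 : ℕ) : ℝ) * (1 + ∑ i ∈ J, lg S γ i) := by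
        push_cast
        have h6 : (0 : ℝ) ≤ R' := Nat.cast_nonneg _
        nlinarith
      exact ⟨i, q, hiq, lt_of_lt_of_le h5 (h3 i hiJ), lt_of_lt_of_le h5 (h3 q hqJ)⟩
    have h7 := hR' (b (nn n)) (hb1 (nn n)).1
    exact absurd (hn.trans (cl_mono_h23T hsub _)) (not_le.2 h7)
  rw [hMid, Finset.mem_filter] at hqM
  obtain ⟨-, hq0, hq2⟩ := hqM
  have hx : ∃ x0 : Fin N, x0 ∉ T0 ∧ x0 < q := by
    by_contra h
    push Not at h
    exact hq2 ⟨hq0, Or.inl fun j hj => h j hj⟩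
  have hy : ∃ y0 : Fin N, y0 ∉ T0 ∧ q < y0 := by
    by_contra h
    push Not at h
    exact hq2 ⟨hq0, Or.inr fun j hj => h j hj⟩
  obtain ⟨x0, hx0, hxq⟩ := hx
  obtain ⟨y0, hy0, hqy⟩ := hy
  rw [hJ] at hcJ
  exact no_midT hT D hr (fun n => (hb1 (nn n)).1) hv hx0 hxq hy0 hqy hcJ

end Pool.Agent.Helper43.TH
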