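import Pool.Agent.Helper43.TH.Ext
import Pool.Agent.Helper43.TA.Trf

/-!
# Project TH (MP_0f6f3f_an): the end of the argument, with trivial gaps

As `no_two_K` (helper46) and `typeA_core2` (helper68).
-/

set_option autoImplicit false
set_option linter.unusedSectionVars false

open MeasureTheory Filter Topology

namespace Pool.Agent.Helper43.TH

open Pool.Agent.Helper84.NI Pool.Agent.Helper84.GVN Pool.Agent.Helper90.RK
open Pool.Agent.Helper84.GN hiding toReg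
open Pool.Agent.Helper96.RK Pool.Agent.Helper66.FR Pool.Agent.Helper84.FR Pool.Agent.Helper96.FR Pool.Agent.Helper55.FR
open Pool.Agent.Helper43.TA

private theorem mono68T {X G : Type} [MeasurableSpace X] {μ : Measure X} [IsProbabilityMeasure μ] {A B : Set G}
    (h : A ⊆ B) (f : XL μ (L2 G)) : ‖cl μ (ind ℂ A) f‖ ≤ ‖cl μ (ind ℂ B) f‖ := by
  have h1 := cl_ind_ind A B f
  rw [Set.inter_eq_left.2 h] at h1
  rw [← h1]
  have h2 := norm_cl_le_of (μ := μ) (T := ind ℂ A) (C := 1) zero_le_one (fun x => by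
    rw [one_mul]
    exact norm_ind2 _ _) (cl μ (ind ℂ B) f)
  rwa [one_mul] at h2

private theorem union68T {X G : Type} [MeasurableSpace X] {μ : Measure X} [IsProbabilityMeasure μ] (A B : Set G)
    (f : XL μ (L2 G)) : ‖cl μ (ind ℂ (A ∪ B)) f‖ ≤ ‖cl μ (ind ℂ A) f‖ + ‖cl μ (ind ℂ B) f‖ := by
  classical
  have h1 : (ind ℂ (A ∪ B) : L2 G →L[ℂ] L2 G) = ind ℂ A + ind ℂ (B \ A) := by
    ext1 v
    apply lv_ext
    intro i
    have h : ((ind ℂ A + ind ℂ (B \ A) : L2 G →L[ℂ] L2 G) v) i = ind ℂ A v i + ind ℂ (B \ A) v i := rfl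
    rw [h, ind_apply, ind_apply, ind_apply]
    by_cases h1 : i ∈ A <;> by_cases h2 : i ∈ B <;> simp [h1, h2]
  rw [h1, cl_add]
  exact (norm_add_le _ _).trans (add_le_add le_rfl (mono68T Set.sdiff_subset _))

variable {G1 X G Λ : Type} [Group G1] [TopologicalSpace G1] [IsTopologicalGroup G1] [LocallyCompactSpace G1]
  [SecondCountableTopology G1] [T2Space G1] [MeasurableSpace X]
  {μ : Measure X} [MulAction G1 X] [MeasurableConstSMul G1 X] [SMulInvariantMeasure G1 X μ] [IsProbabilityMeasure μ]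
  [Group G] [Group Λ] [Countable Λ] {a : Cocy G1 X Λ} {E : Emb Λ G} {N : ℕ} {P : PH G N} {S : Sv P}
  {Z : Subgroup G1} {r : ℕ} {T0 : Finset (Fin N)}

theorem shf_ELT (S : Sv P) (T0 : Finset (Fin N)) (Q : Finset G) (R : ℕ) : ∃ R' : ℕ, shf Q (ELT S T0 R) ⊆ ELT S T0 R' := by
  classical
  choose C hC using fun p : G × G => lg_shift S (p.1)⁻¹ p.2
  refine ⟨R + (Q ×ˢ Q).sup C, ?_⟩
  rintro γ ⟨q, hq, q', hq', h⟩ i hi
  have h1 := (hC (q, q') γ i).2
  simp only [inv_inv] at h1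
  have h2 : C (q, q') ≤ (Q ×ˢ Q).sup C := Finset.le_sup (Finset.mk_mem_product hq hq')
  have h3 : (C (q, q') : ℝ) ≤ ((Q ×ˢ Q).sup C : ℕ) := by exact_mod_cast h2
  have h4 := h i hi
  push_cast
  linarith

theorem no_two_KT (hT : Triv S T0) (D : Dat μ a Z r) (hr : r + 1 + T0.card = N) {K : Set G1} (hK : IsCompact K) {β : ℝ}
    (hβ : 0 < β) :
    ∃ R : ℕ, ∀ k ∈ K, ∀ k' ∈ K, ∀ z ∈ Z, ‖cl μ (ind ℂ (TwoL S R)) (zx μ a E (k * z * k'))‖ < β := by
  obtain ⟨Q, C, hC, h⟩ := transfer (E := E) D.h3 hK (half_pos hβ)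
  have hC' : (0 : ℝ) < C + 1 := by linarith
  have hβ2 : (0 : ℝ) < β / (2 * (C + 1)) := by positivity
  obtain ⟨R0, hR0⟩ := no_twoT (E := E) (S := S) hT D hr hβ2
  obtain ⟨R, hR⟩ := shf_TwoL S Q R0
  refine ⟨R, fun k hk k' hk' z hz => ?_⟩
  have e1 := h k hk k' hk' z (TwoL S R)
  have e2 := mono68T (μ := μ) hR (zx μ a E z)
  have e3 := (hR0 z hz)
  have e4 : C * ‖cl μ (ind ℂ (shf Q (TwoL S R))) (zx μ a E z)‖ < β / 2 := by
    have e5 : C * ‖cl μ (ind ℂ (shf Q (TwoL S R))) (zx μ a E z)‖ ≤ C * (β / (2 * (C + 1))) :=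
      mul_le_mul_of_nonneg_left (e2.trans e3.le) hC
    have e6 : C * (β / (2 * (C + 1))) < β / 2 := by
      rw [mul_div_assoc', div_lt_div_iff₀ (by positivity) two_pos]
      nlinarith
    linarith
  linarith

theorem typeA_core2T (hT0 : Triv S T0) (D : Dat μ a Z r) (hr : r + 1 + T0.card = N) (hr1 : 1 ≤ r) {K : Set G1} (hK : IsCompact K) {F : Subgroup G1}
    (hKZ : ∀ f ∈ F, ∃ k ∈ K, ∃ z ∈ Z, ∃ k' ∈ K, f = k * z * k') (hF : DiscreteTopology F) (hna : NonAm F)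
    (hreach : ∀ (q : Fin N) (β : ℝ), 0 < β → Xt T0 q →
      (∀ R : ℕ, ∃ f ∈ F, β ≤ ‖cl μ (ind ℂ (GapL S q R)) (zx μ a E f)‖) →
      ∃ β' : ℝ, 0 < β' ∧ ∀ R : ℕ, ∃ f ∈ F, β' ≤ ‖cl μ (ind ℂ (TwoL S R)) (zx μ a E f)‖) : False := by
  classical
  have hinf : Infinite F := Pool.Agent.Helper66.RK.infinite_of_nonAm hna
  have hclosed : IsClosed (F : Set G1) := Subgroup.isClosed_of_discrete
  have hleave : ∀ K' : Set G1, IsCompact K' → ∃ f ∈ F, f ∉ K' := by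
    intro K' hK'
    by_contra hcon
    push Not at hcon
    have h1 : (F : Set G1) ⊆ K' := hcon
    have h2 : IsCompact (F : Set G1) := hK'.of_isClosed_subset hclosed h1
    have h3 : (F : Set G1).Finite := h2.finite ⟨hF⟩
    exact Set.infinite_coe_iff.1 hinf h3
  obtain ⟨Q, C, hC, hT⟩ := transfer (E := E) D.h3 hK (ε := 1 / 4) (by norm_num)
  have hne : (Finset.univ \ T0 : Finset (Fin N)).Nonempty := by
    rw [← Finset.card_pos, Finset.card_sdiff_of_subset (Finset.subset_univ _), Finset.card_univ, Fintype.card_fin]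
    omega
  obtain ⟨q0, hq0, hq0m⟩ := Finset.exists_minimal hne
  obtain ⟨q1, hq1, hq1m⟩ := Finset.exists_maximal hne
  have hx0 : Xt T0 q0 := ⟨(Finset.mem_sdiff.1 hq0).2, Or.inl fun j hj => by
    by_contra hcon
    exact absurd (hq0m (Finset.mem_sdiff.2 ⟨Finset.mem_univ j, hj⟩) (not_le.1 hcon).le) hcon⟩
  have hx1 : Xt T0 q1 := ⟨(Finset.mem_sdiff.1 hq1).2, Or.inr fun j hj => by
    by_contra hcon
    exact absurd (hq1m (Finset.mem_sdiff.2 ⟨Finset.mem_univ j, hj⟩) (not_le.1 hcon).le) hcon⟩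
  have hxt : ∀ i, Xt T0 i → i = q0 ∨ i = q1 := by
    rintro i ⟨hi, hi1 | hi1⟩
    · left
      refine le_antisymm (hi1 q0 (Finset.mem_sdiff.1 hq0).2) ?_
      by_contra hcon
      exact hcon (hq0m (Finset.mem_sdiff.2 ⟨Finset.mem_univ i, hi⟩) (not_le.1 hcon).le)
    · right
      refine le_antisymm ?_ (hi1 q1 (Finset.mem_sdiff.1 hq1).2)
      by_contra hcon
      exact hcon (hq1m (Finset.mem_sdiff.2 ⟨Finset.mem_univ i, hi⟩) (not_le.1 hcon).le)
  have key : ∀ R : ℕ, ∃ f ∈ F, 1 / 4 ≤ ‖cl μ (ind ℂ (GapL S q0 R)) (zx μ a E f)‖ ∨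
      1 / 4 ≤ ‖cl μ (ind ℂ (GapL S q1 R)) (zx μ a E f)‖ := by
    intro R
    obtain ⟨R1, hR1⟩ := shf_ELT S T0 Q R
    obtain ⟨K0, hK0, hz⟩ := ext_gapsT (E := E) (S := S) hT0 D hr hr1 R1 (ε := 1 / (4 * (C + 1))) (by positivity)
    have hcomp : IsCompact ((fun p : G1 × G1 × G1 => p.1 * p.2.1 * p.2.2) '' (K ×ˢ K0 ×ˢ K)) :=
      (hK.prod (hK0.prod hK)).image (by fun_prop)
    obtain ⟨f, hfF, hf⟩ := hleave _ hcomp
    refine ⟨f, hfF, ?_⟩
    obtain ⟨k, hk, z, hzZ, k', hk', hfe⟩ := hKZ f hfF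
    have hzK : z ∉ K0 := by
      intro h
      apply hf
      rw [hfe]
      exact ⟨(k, z, k'), ⟨hk, h, hk'⟩, rfl⟩
    have h1 := hT k hk k' hk' z (ELT S T0 R)
    rw [← hfe] at h1
    have h2 := (mono68T hR1 (zx μ a E z)).trans (hz z hzZ hzK)
    have h3 : ‖cl μ (ind ℂ (ELT S T0 R)) (zx μ a E f)‖ ≤ 1 / 2 := by
      have h4 : C * ‖cl μ (ind ℂ (shf Q (ELT S T0 R))) (zx μ a E z)‖ ≤ 1 / 4 := by
        refine (mul_le_mul_of_nonneg_left h2 hC).trans ?_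
        have h5 : (0 : ℝ) < 4 * (C + 1) := by positivity
        rw [mul_one_div, div_le_iff₀ h5]
        linarith
      linarith
    by_contra hcon
    push Not at hcon
    have h4 := cl_ind_split (ELT S T0 R) (zx μ a E f)
    rw [norm_zx] at h4
    have h5 : Set.univ \ ELT S T0 R ⊆ GapL S q0 R ∪ GapL S q1 R := by
      intro γ hγ
      have h6 := hγ.2
      simp only [ELT, Set.mem_ofPred_eq, not_forall, not_le] at h6
      obtain ⟨i, hi, hlt⟩ := h6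
      rcases hxt i hi with h7 | h7
      · left
        rw [h7] at hlt
        exact hlt
      · right
        rw [h7] at hlt
        exact hlt
    have h6 := (mono68T h5 (zx μ a E f)).trans (union68T _ _ _)
    have h7 : ‖cl μ (ind ℂ (Set.univ \ ELT S T0 R)) (zx μ a E f)‖ ≤ 1 / 2 := by linarith [hcon.1, hcon.2]
    have h8 : ‖cl μ (ind ℂ (ELT S T0 R)) (zx μ a E f)‖ ^ 2 ≤ (1 / 2) ^ 2 := pow_le_pow_left₀ (norm_nonneg _) h3 2
    have h9 : ‖cl μ (ind ℂ (Set.univ \ ELT S T0 R)) (zx μ a E f)‖ ^ 2 ≤ (1 / 2) ^ 2 :=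
      pow_le_pow_left₀ (norm_nonneg _) h7 2
    linarith
  have gmono : ∀ (q : Fin N) {R R' : ℕ}, R ≤ R' → GapL S q R' ⊆ GapL S q R := by
    intro q R R' h γ hγ
    have h1 : (R' : ℝ) < lg S γ q := hγ
    have h2 : (R : ℝ) ≤ R' := Nat.cast_le.2 h
    exact lt_of_le_of_lt h2 h1
  have hsel : ∃ q : Fin N, Xt T0 q ∧
      ∀ R : ℕ, ∃ f ∈ F, 1 / 4 ≤ ‖cl μ (ind ℂ (GapL S q R)) (zx μ a E f)‖ := by
    by_cases h : ∀ R : ℕ, ∃ f ∈ F, 1 / 4 ≤ ‖cl μ (ind ℂ (GapL S q0 R)) (zx μ a E f)‖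
    · exact ⟨q0, hx0, h⟩
    · push Not at h
      obtain ⟨R0, hR0⟩ := h
      refine ⟨q1, hx1, fun R => ?_⟩
      obtain ⟨f, hfF, hf⟩ := key (max R R0)
      refine ⟨f, hfF, ?_⟩
      rcases hf with hf | hf
      · have h1 := hf.trans (mono68T (gmono _ (le_max_right R R0)) _)
        exact absurd (hR0 f hfF) (not_lt.2 h1)
      · exact hf.trans (mono68T (gmono _ (le_max_left R R0)) _)
  obtain ⟨q, hq, hqR⟩ := hsel
  obtain ⟨β', hβ', hβR⟩ := hreach q (1 / 4) (by norm_num) hq hqR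
  obtain ⟨R, hR⟩ := no_two_KT (E := E) (S := S) hT0 D hr hK hβ'
  obtain ⟨f, hfF, hf⟩ := hβR R
  obtain ⟨k, hk, z, hzZ, k', hk', hfe⟩ := hKZ f hfF
  have h1 := hR k hk k' hk' z hzZ
  rw [← hfe] at h1
  exact absurd h1 (not_lt.2 hf)

end Pool.Agent.Helper43.TH
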