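import Pool.Agent.Helper43.TA.Lvl
import Pool.Agent.Helper43.TA.Rgl
import Pool.Agent.Helper43.TA.Tight
import Pool.Agent.Helper43.TA.Blk
import Pool.Agent.Helper43.TH.Base

/-!
# Project TH (MP_0f6f3f_an): `no_two`, `side_mean` with trivial gaps
-/

set_option autoImplicit false
set_option linter.unusedSectionVars false

open MeasureTheory Filter Topology

namespace Pool.Agent.Helper43.TH

open Pool.Agent.Helper84.NI Pool.Agent.Helper84.GVN Pool.Agent.Helper90.RK
open Pool.Agent.Helper84.GN hiding toReg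
open Pool.Agent.Helper96.RK Pool.Agent.Helper66.FR Pool.Agent.Helper84.FR Pool.Agent.Helper96.FR Pool.Agent.Helper55.FR
open Pool.Agent.Helper43.TA

variable {G1 X G Λ : Type} [Group G1] [TopologicalSpace G1] [IsTopologicalGroup G1] [MeasurableSpace X] {μ : Measure X}
  [MulAction G1 X] [MeasurableConstSMul G1 X] [SMulInvariantMeasure G1 X μ] [IsProbabilityMeasure μ]
  [Group G] [Group Λ] [Countable Λ] {a : Cocy G1 X Λ} {E : Emb Λ G} {N : ℕ} {P : PH G N} {S : Sv P}
  {F : Subgroup G1} {r : ℕ} {T0 : Finset (Fin N)}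

private theorem twoL_eq86T (hN : 0 < N) (m : ℕ) :
    TwoL S m = TC S ([] : List (Finset (Fin N))) m \
      {γ | ∃ K ∈ (Finset.univ.image fun i : Fin N => (Finset.univ : Finset (Fin N)).erase i), γ ∈ WC S K m} := by
  classical
  have hTC : TC S ([] : List (Finset (Fin N))) m = Set.univ := by
    ext γ
    simp [Pool.Agent.Helper96.RK.TC]
  rw [hTC]
  ext γ
  constructor
  · rintro ⟨i, j, hij, hi, hj⟩
    refine ⟨Set.mem_univ _, ?_⟩
    rintro ⟨K, hK, hγ⟩
    obtain ⟨l, -, rfl⟩ := Finset.mem_image.1 hK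
    by_cases hl : i = l
    · have h1 := hγ j (Finset.mem_erase.2 ⟨fun h => hij (hl.trans h.symm), Finset.mem_univ _⟩)
      linarith
    · have h1 := hγ i (Finset.mem_erase.2 ⟨hl, Finset.mem_univ _⟩)
      linarith
  · rintro ⟨-, h⟩
    have hex : ∀ i : Fin N, ∃ k, k ≠ i ∧ (m : ℝ) < lg S γ k := by
      intro i
      by_contra hcon
      push Not at hcon
      refine h ⟨Finset.univ.erase i, Finset.mem_image_of_mem _ (Finset.mem_univ i), fun k hk => ?_⟩
      exact hcon k (Finset.mem_erase.1 hk).1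
    obtain ⟨k, -, hk⟩ := hex ⟨0, hN⟩
    obtain ⟨k', hk', hk2⟩ := hex k
    exact ⟨k, k', fun h => hk' h.symm, hk, hk2⟩

private theorem card86T {J : Finset (Fin N)} (hN : 0 < N)
    (hJ : ∀ K ∈ (Finset.univ.image fun i : Fin N => (Finset.univ : Finset (Fin N)).erase i), ¬ K ⊆ J) : J.card + 2 ≤ N := by
  classical
  have hex : ∀ i : Fin N, ∃ k, k ≠ i ∧ k ∉ J := by
    intro i
    by_contra hcon
    push Not at hcon
    exact hJ _ (Finset.mem_image_of_mem _ (Finset.mem_univ i)) fun k hk => hcon k (Finset.mem_erase.1 hk).1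
  obtain ⟨k, -, hk⟩ := hex ⟨0, hN⟩
  obtain ⟨k', hk', hk2⟩ := hex k
  have h1 : J ⊆ (Finset.univ.erase k).erase k' := by
    intro i hi
    refine Finset.mem_erase.2 ⟨?_, Finset.mem_erase.2 ⟨?_, Finset.mem_univ _⟩⟩
    · rintro rfl; exact hk2 hi
    · rintro rfl; exact hk hi
  have h2 := Finset.card_le_card h1
  rw [Finset.card_erase_of_mem (Finset.mem_erase.2 ⟨hk', Finset.mem_univ _⟩), Finset.card_erase_of_mem (Finset.mem_univ _),
    Finset.card_univ, Fintype.card_fin] at h2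
  have h3 := k.2
  have h4 := k'.2
  have h5 : (k : ℕ) ≠ (k' : ℕ) := fun h => hk' (Fin.ext h.symm)
  omega

private theorem zcomm86T {G1 : Type} [Group G1] {a b x : G1} (q : ℤ) (ha : a * x = x * a) (hb : b * x = x * b) :
    a ^ q * b * x = x * (a ^ q * b) := by
  have h1 : Commute (a ^ q) x := (show Commute a x from ha).zpow_left q
  have h2 : Commute b x := hb
  exact (h1.mul_left h2)

theorem no_twoT (hT : Triv S T0) (D : Dat μ a F r) (hr : r + 1 + T0.card = N) {β : ℝ} (hβ : 0 < β) :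
    ∃ R : ℕ, ∀ f ∈ F, ‖cl μ (ind ℂ (TwoL S R)) (zx μ a E f)‖ < β := by
  classical
  by_contra hcon
  push Not at hcon
  choose f hfF hf using hcon
  have hN : 0 < N := by omega
  obtain ⟨J, -, hJ, hcomp⟩ := selectK S ([] : List (Finset (Fin N)))
    (Finset.univ.image fun i : Fin N => (Finset.univ : Finset (Fin N)).erase i) (zx μ a E) zx_bound hβ f (fun m => by
      rw [← twoL_eq86T hN m]
      exact hf m)
  have hcard := card86T hN hJ
  have h1 := card_boundT hT (zx μ a E) zx_bound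
    (fun k => {g : G1 | ∀ i : Fin r, k ≤ (i : ℕ) → g * D.e i = D.e i * g ∧ g * D.u i = D.u i * g ∧ g * D.w i = D.w i * g})
    r J [] f (fun n i _ => D.cF i (f n) (hfF n)) hcomp (by
      intro k hk J' c' b hb hc
      obtain ⟨β', hβ', h⟩ := esc_lvl (S := S) D ⟨k, hk⟩ b (fun n => hb n ⟨k, hk⟩ le_rfl) J' c' hc
      refine ⟨β', hβ', fun m => ?_⟩
      obtain ⟨n, q, hnq⟩ := h m
      refine ⟨_, ?_, hnq⟩
      intro i hi
      have hi' : k + 1 ≤ (i : ℕ) := hi
      have hne : (⟨k, hk⟩ : Fin r) ≠ i := by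
        intro h0
        have := congrArg Fin.val h0
        simp only at this
        omega
      obtain ⟨b1, b2, b3⟩ := hb n i (by omega)
      obtain ⟨c1, c2⟩ := D.cu ⟨k, hk⟩ i hne
      exact ⟨zcomm86T q (D.cc _ _) b1, zcomm86T q c1 b2, zcomm86T q c2 b3⟩)
  omega

private theorem av_mono23T {f g : ℕ → ℝ} (h : ∀ k, f k ≤ g k) (K : ℕ) : av f K ≤ av g K := by
  unfold av
  exact div_le_div_of_nonneg_right (Finset.sum_le_sum fun k _ => h k) (Nat.cast_nonneg K)

private theorem av_add23T (f : ℕ → ℝ) (c : ℝ) {K : ℕ} (hK : 1 ≤ K) :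
    av (fun k => f k + c) K = av f K + c := by
  unfold av
  have h : (K : ℝ) ≠ 0 := by exact_mod_cast (by omega : K ≠ 0)
  rw [Finset.sum_add_distrib, Finset.sum_const, Finset.card_range, nsmul_eq_mul, add_div,
    mul_div_cancel_left₀ _ h]

private theorem av_mul23T (c : ℝ) (f : ℕ → ℝ) (K : ℕ) : av (fun k => c * f k) K = c * av f K := by
  unfold av
  rw [← Finset.mul_sum, mul_div_assoc]

private theorem av_nonneg23T {f : ℕ → ℝ} (h : ∀ k, 0 ≤ f k) (K : ℕ) : 0 ≤ av f K :=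
  div_nonneg (Finset.sum_nonneg fun k _ => h k) (Nat.cast_nonneg K)

omit [TopologicalSpace G1] [IsTopologicalGroup G1] [MeasurableSpace X] [MulAction G1 X]
  [MeasurableConstSMul G1 X] [SMulInvariantMeasure G1 X μ] [IsProbabilityMeasure μ] [Group G] [Group Λ]
  [Countable Λ] in
private theorem Mt_anti23T [TopologicalSpace G1] {A B : Set G1} (h : A ⊆ B) (a0 : G1) : Mt B a0 ⊆ Mt A a0 := by
  unfold Mt
  refine closure_mono ?_
  refine SetLike.coe_subset_coe.2 (Subgroup.closure_mono fun u hu => ?_)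
  exact ⟨fun f hf => hu.1 f (h hf), hu.2⟩

theorem side_meanT [T2Space G1] (hT : Triv S T0) (D : Dat μ a F r) (hr : r + 1 + T0.card = N) {b : ℕ → G1} (hbF : ∀ n, b n ∈ F)
    (hb : Tendsto b atTop (cocompact G1)) {q i : Fin N} (hi : i ∉ T0) (hiq : i ≠ q) (n : ℕ)
    {i0 : Fin r} (hi0 : (i0 : ℕ) = 0) :
    Tendsto (av fun k => mR μ a E (toReg (chStr S (Finset.univ.erase q) []))
      (WC S (KB (Finset.univ.erase q) (bJ (Finset.univ.erase q) i)) n) (ltr (D.e i0 ^ k) b)) atTop (𝓝 0) := by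
  classical
  obtain ⟨J, hJ⟩ : ∃ J : Finset (Fin N), J = Finset.univ.erase q := ⟨_, rfl⟩
  rw [← hJ]
  have hiK : i ∈ KB J (bJ J i) := mem_KB.2 ⟨by rw [hJ]; exact Finset.mem_erase.2 ⟨hiq, Finset.mem_univ i⟩, rfl⟩
  obtain ⟨β, hβ⟩ : ∃ β : ℕ, β = bJ J i := ⟨_, rfl⟩
  rw [← hβ] at hiK ⊢
  obtain ⟨L, _, _, _, Γ, hΓ⟩ := exists_blk S J [] β
  have hcomm : ∀ n, b n * D.e i0 = D.e i0 * b n := fun n => (D.cF i0 (b n) (hbF n)).1
  obtain ⟨κ, hκ0, hκ⟩ := tight (μ := μ) (a := a) (E := E) Γ D.h3 b hcomm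
  have hr1 : 1 ≤ r := lt_of_le_of_lt (Nat.zero_le _) i0.2
  have hsub : Mt (F : Set G1) (D.e i0) ⊆ Mt (Set.range b) (D.e i0) :=
    Mt_anti23T (Set.range_subset_iff.2 hbF) _
  have hHS : ∀ h ∈ HS D r, h ∈ Mt (Set.range b) (D.e i0) := by
    intro h hh
    have h1 : HS D r ≤ (Subgroup.closure (Ctr (F : Set G1) (D.e i0))).topologicalClosure := by
      unfold HS
      rw [Subgroup.closure_le]
      rintro g ⟨j, _, _, rfl⟩
      exact D.mt i0 j hi0
    exact hsub (h1 hh)
  -- the number is zero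
  have hκz : κ = 0 := by
    by_contra hne
    have hκp : 0 < κ := lt_of_le_of_ne hκ0 (Ne.symm hne)
    obtain ⟨n', hn'⟩ := hΓ (κ / 4) (by positivity)
    obtain ⟨K0, hK0⟩ := hκ (κ / 4) (by positivity)
    refine diag (μ := μ) (a := a) (E := E) (S := S) hr1 b (HS D r : Set G1) (a0 := D.e i0) ?_ ?_ ?_
      (WC S (KB J β) n') (δ := κ / 2) (by positivity) (max K0 1) ?_ (n' + 1) ?_
    · intro h hh n
      rw [mul_assoc, hcomm n, ← mul_assoc, (HS_comm D hh (Or.inl hi0)).1, mul_assoc]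
    · intro g hg J' c m
      refine esc_dat D i0 g (fun k => ?_) J' c m
      obtain ⟨h, hh, l, hl⟩ := hg k
      obtain ⟨c1, c2, c3⟩ := HS_comm D hh (Or.inl hi0)
      obtain ⟨d1, d2, d3⟩ := D.cF i0 (b l) (hbF l)
      rw [hl]
      refine ⟨?_, ?_, ?_⟩
      · rw [mul_assoc, d1, ← mul_assoc, c1, mul_assoc]
      · rw [mul_assoc, d2, ← mul_assoc, c2, mul_assoc]
      · rw [mul_assoc, d3, ← mul_assoc, c3, mul_assoc]
    · intro m ε hε
      exact reg_ind D hbF hb hr1 le_rfl m hε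
    · intro h hh K hK
      have hKK : K0 ≤ K := le_trans (le_max_left _ _) hK
      have hK1 : 1 ≤ K := le_trans (le_max_right _ _) hK
      have h1 := abs_le.1 (hK0 K hKK h (hHS h hh))
      have h2 : av (fun k => ph μ a E Γ (ltr (D.e i0 ^ k * h) b)) K ≤
          av (fun k => ms μ a E (WC S (KB J β) n') (ltr (D.e i0 ^ k * h) b) + κ / 4) K := by
        refine av_mono23T (fun k => ?_) K
        refine (ph_upper Γ (by positivity) hn' _).trans ?_
        have h3 := mR_le_ms (μ := μ) (a := a) (E := E) (blkReg S J [] β) (WC S (KB J β) n')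
          (ltr (D.e i0 ^ k * h) b)
        linarith
      rw [av_add23T _ _ hK1] at h2
      linarith [h1.1]
    · intro γ hγ hγ'
      have h1 := TJ_gapT hT (j := r + 1) (m := n') (by omega) hγ' hi
      have h2 : lg S γ i ≤ (n' : ℝ) := hγ i hiK
      linarith
  subst hκz
  obtain ⟨c, hc, hlow⟩ := ph_lower (μ := μ) (a := a) (E := E) Γ n
  rw [Metric.tendsto_atTop]
  intro ε hε
  obtain ⟨K0, hK0⟩ := hκ (c * ε / 2) (by positivity)
  refine ⟨K0, fun K hK => ?_⟩
  have h1 : |av (fun k => ph μ a E Γ (ltr (D.e i0 ^ k * 1) b)) K - 0| ≤ c * ε / 2 :=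
    hK0 K hK 1 (subset_closure (Subgroup.one_mem _))
  have h2 : av (fun k => c * mR μ a E (toReg (chStr S J [])) (WC S (KB J β) n) (ltr (D.e i0 ^ k) b)) K ≤
      av (fun k => ph μ a E Γ (ltr (D.e i0 ^ k * 1) b)) K := by
    refine av_mono23T (fun k => ?_) K
    rw [mul_one]
    exact hlow _
  rw [av_mul23T] at h2
  have h3 : 0 ≤ av (fun k => mR μ a E (toReg (chStr S J [])) (WC S (KB J β) n) (ltr (D.e i0 ^ k) b)) K :=
    av_nonneg23T (fun k => mR_nonneg _ _ _) K
  rw [Real.dist_eq, sub_zero, abs_of_nonneg h3]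
  rw [sub_zero] at h1
  have h4 := (abs_le.1 h1).2
  have h5 : c * av (fun k => mR μ a E (toReg (chStr S J [])) (WC S (KB J β) n) (ltr (D.e i0 ^ k) b)) K
      < c * ε := by
    have : c * ε / 2 < c * ε := by
      have : 0 < c * ε := mul_pos hc hε
      linarith
    linarith
  exact lt_of_mul_lt_mul_left h5 hc.le

end Pool.Agent.Helper43.TH
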